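import Pool.Agent.KS6_45.BZ.Fun

set_option autoImplicit false

/-!
# MP_0e1b7e_an: the Bazilevic classes `B_1(α, β)` of order `β`

`B_1(α, β)` is the class of all `f` in `𝒜` with `Re ((f(z)/z)^(α-1) f'(z)) > β` on the unit disc
(`β = 0` is the class of the question), and `g` is the member with
`(g(z)/z)^(α-1) g'(z) = (1 + (1-2β) z)/(1 - z)`. For all `α > 0`, `0 ≤ β < 1`:

1. the inequality `|a_n(f)| ≤ a_n(g)` holds for all `f` in the class and all `n ≥ 2` if and only if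
   `α ≤ 1`;
2. for `α < 1` and each `n ≥ 2`, equality holds exactly for the rotations of `g`, and the
   difference `a_n(g) - |a_n(f)|` controls the distance of `f` from the rotations of `g`;
3. the same for the coefficients of the powers `(f(z)/z)^λ`, if `(1-2β) α ≤ 1`: the inequality holds
   for all `f` and `n` if and only if `λ ≥ α`, with uniqueness and stability for `λ > α`.

Idea of the proof. The library proof of the inequality for `β = 0` (module `CoefBound`) shows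
`|[z^n] K (H/G)^γ| ≤ 1` for `H = (f/z)^α`, `G = (g/z)^α`, `K = 1/(1-z)`, `0 < γ ≤ 1`. The coefficient
with `n = 1` is `(1 - γ G_1) + γ G_1 c_1` with the first moment `c_1` of the Herglotz measure, so it is
at most `1 - γ G_1 (1 - |c_1|)`; this gain is kept through all the following steps. It gives
`|[z^m] H^δ| + κ (1 - |c_1|) ≤ [z^m] G^δ` for all `δ > 1` with `κ > 0` independent of `f`, and the
number `1 - |c_1|` (the variance of the Herglotz measure) controls all the moments. The order `β`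
changes the sequence `α/(k+α)`, `k ≥ 1`, by the factor `1 - β`, which keeps Kaluza's condition.
Below the exponent `α` the second coefficient of the function with
`(f/z)^(α-1) f' = (1 + (1-2β) z²)/(1 - z²)` is larger than that of `g`.
-/

namespace Pool.Agent.Results.MP_0e1b7e_an.UniqueAndStable

open Complex Metric
open Pool.Agent.KS6_45.BZ Pool.Agent.Q139.Baz

/-- The class `𝒜`: `f` is analytic on the open unit disc with `f(0) = 0` and `f'(0) = 1`. -/
structure InA (f : ℂ → ℂ) : Prop where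
  diff : DifferentiableOn ℂ f (ball 0 1)
  zero : f 0 = 0
  one : deriv f 0 = 1

/-- `l` is the analytic branch of `log (f(z)/z)` on the unit disc with `l(0) = 0`. -/
structure IsLogBranch (f l : ℂ → ℂ) : Prop where
  diff : DifferentiableOn ℂ l (ball 0 1)
  zero : l 0 = 0
  eq : ∀ z ∈ ball (0 : ℂ) 1, f z = z * exp (l z)

/-- `(f(z)/z)^(α-1) f'(z)`, the power being the branch `exp ((α-1) l(z))`. -/
noncomputable def bazExpr (α : ℝ) (f l : ℂ → ℂ) (z : ℂ) : ℂ :=
  exp (((α : ℂ) - 1) * l z) * deriv f z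

/-- `f` is in the class `B_1(α, β)` and `l` is the branch of `log (f(z)/z)`: `f` is in `𝒜`,
`f(z)/z = exp (l z)` does not vanish, and `Re ((f(z)/z)^(α-1) f'(z)) > β` on the unit disc. The
branch `l` is determined by `f` (`branch_unique`). The class `B_1(α)` of the question is
`B_1(α, 0)`. -/
def InB1 (α β : ℝ) (f l : ℂ → ℂ) : Prop :=
  InA f ∧ IsLogBranch f l ∧ ∀ z ∈ ball (0 : ℂ) 1, β < (bazExpr α f l z).re

/-- `g` is the extremal function, with the branch `lg`: `g ∈ 𝒜` and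
`(g(z)/z)^(α-1) g'(z) = (1 + (1-2β) z)/(1-z)` on the unit disc. -/
def IsExtremal (α β : ℝ) (g lg : ℂ → ℂ) : Prop :=
  InA g ∧ IsLogBranch g lg ∧
    ∀ z ∈ ball (0 : ℂ) 1, bazExpr α g lg z = (1 + (1 - 2 * (β : ℂ)) * z) / (1 - z)

/-- The `n`-th Taylor coefficient of `f` at `0`. -/
noncomputable def coef (f : ℂ → ℂ) (n : ℕ) : ℂ := iteratedDeriv n f 0 / (n.factorial : ℂ)

/-- The `n`-th Taylor coefficient of `(f(z)/z)^lam = exp (lam * l(z))`. -/
noncomputable def pcoef (lam : ℝ) (l : ℂ → ℂ) (n : ℕ) : ℂ := coef (fun z => exp (lam * l z)) n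

/-- `f` is a rotation of `g`: `f(z) = ζ⁻¹ g(ζ z)` with `|ζ| = 1`. -/
def IsRotation (f g : ℂ → ℂ) : Prop :=
  ∃ ζ : ℂ, ‖ζ‖ = 1 ∧ ∀ z ∈ ball (0 : ℂ) 1, f z = ζ⁻¹ * g (ζ * z)

/-- `(f(z)/z)^(α-1) f'(z)` is at distance at most `c / (1-|z|)^2` from the same expression for a
rotation of `g`. -/
def NearRotation (α : ℝ) (f l g lg : ℂ → ℂ) (c : ℝ) : Prop :=
  ∃ ζ : ℂ, ‖ζ‖ = 1 ∧ ∀ z ∈ ball (0 : ℂ) 1,
    ‖bazExpr α f l z - bazExpr α g lg (ζ * z)‖ ≤ c / (1 - ‖z‖) ^ 2

lemma toBranch {f l : ℂ → ℂ} (h : IsLogBranch f l) : LogBranch f l := ⟨h.diff, h.zero, h.eq⟩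

/-- A remark on the definitions: the branch `l` is determined by `f`. -/
theorem branch_determined {f l₁ l₂ : ℂ → ℂ} (h₁ : IsLogBranch f l₁) (h₂ : IsLogBranch f l₂) :
    ∀ z ∈ ball (0 : ℂ) 1, l₁ z = l₂ z := branch_unique (toBranch h₁) (toBranch h₂)

lemma inA_of_branch {g l : ℂ → ℂ} (h : LogBranch g l) : InA g := by
  refine ⟨?_, ?_, ?_⟩
  · have : DifferentiableOn ℂ (fun w => w * exp (l w)) (ball 0 1) :=
      differentiableOn_id.mul h.1.cexp
    exact this.congr h.2.2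
  · rw [h.2.2 0 (mem_ball_self one_pos), zero_mul]
  · rw [deriv_f h (mem_ball_self one_pos), h.2.1]; simp

lemma re_half {z : ℂ} (hz : z ∈ ball (0 : ℂ) 1) : 0 < ((1 + z) / (1 - z)).re := by
  rw [mem_ball_zero_iff] at hz
  have hn : 0 < normSq (1 - z) := by
    rw [normSq_pos]
    intro h
    have : z = 1 := by linear_combination -h
    rw [this, norm_one] at hz
    exact lt_irrefl _ hz
  have h2 : ((1 + z) / (1 - z)).re = (1 - normSq z) / normSq (1 - z) := by
    rw [div_re, ← add_div]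
    congr 1
    simp only [normSq_apply, add_re, sub_re, one_re, add_im, sub_im, one_im]
    ring
  rw [h2]
  apply div_pos _ hn
  have : normSq z < 1 := by
    rw [normSq_eq_norm_sq]
    nlinarith [norm_nonneg z]
  linarith

lemma one_sub_ne {z : ℂ} (hz : z ∈ ball (0 : ℂ) 1) : (1 : ℂ) - z ≠ 0 := by
  intro h
  rw [mem_ball_zero_iff] at hz
  have : z = 1 := by linear_combination -h
  rw [this, norm_one] at hz
  exact lt_irrefl _ hz

lemma ext_split (β : ℝ) {z : ℂ} (hz : z ∈ ball (0 : ℂ) 1) :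
    (1 + (1 - 2 * (β : ℂ)) * z) / (1 - z) =
      ((1 - β : ℝ) : ℂ) * ((1 + z) / (1 - z)) + ((β : ℝ) : ℂ) := by
  have := one_sub_ne hz
  push_cast
  field_simp
  ring

lemma ext_re {β : ℝ} (hβ : β < 1) {z : ℂ} (hz : z ∈ ball (0 : ℂ) 1) :
    β < ((1 + (1 - 2 * (β : ℂ)) * z) / (1 - z)).re := by
  rw [ext_split β hz, add_re, re_ofReal_mul, ofReal_re]
  have := mul_pos (show 0 < 1 - β by linarith) (re_half hz)
  linarith

/-- existence of the extremal function. -/
lemma exists_ext {α β : ℝ} (hα : 0 < α) (hβ0 : 0 ≤ β) (hβ1 : β < 1) :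
    ∃ g lg, IsExtremal α β g lg := by
  have hd : DifferentiableOn ℂ (fun z : ℂ => (1 + (1 - 2 * (β : ℂ)) * z) / (1 - z)) (ball 0 1) := by
    apply DifferentiableOn.div
    · fun_prop
    · fun_prop
    · intro z hz
      exact one_sub_ne hz
  obtain ⟨g, lg, hb, he⟩ := exists_fl hα hd (by simp) (fun z hz => by
    have := ext_re hβ1 hz
    linarith)
  exact ⟨g, lg, inA_of_branch hb, ⟨hb.1, hb.2.1, hb.2.2⟩, he⟩

section
variable {α β : ℝ} {g lg : ℂ → ℂ}

lemma coef_succ {f l : ℂ → ℂ} (h : IsLogBranch f l) (n : ℕ) : coef f (n + 1) = pcoef 1 l n :=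
  tc_f (toBranch h) n

lemma ext_pcoef (hα : 0 < α) (hβ1 : β < 1) (hg : IsExtremal α β g lg) (lam : ℝ) (n : ℕ) :
    pcoef lam lg n =
      ((PowerSeries.coeff n (pw (lam / α) (2 * Tab α β - 1)) : ℝ) : ℂ) :=
  extremal_coeff (toBranch hg.2.1) hα hβ1 hg.2.2 lam n

lemma rot_eq (hα : 0 < α) (hβ0 : 0 ≤ β) (hβ1 : β < 1) (hab : (1 - 2 * β) * α ≤ 1)
    (hg : IsExtremal α β g lg) {f l : ℂ → ℂ} (hf : IsLogBranch f l) (h : IsRotation f g)
    {lam : ℝ} (hlam : 0 < lam) (n : ℕ) : ‖pcoef lam l n‖ = (pcoef lam lg n).re := by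
  obtain ⟨ζ, hζ, hrot⟩ := h
  have h1 : pcoef lam l n = ζ ^ n * pcoef lam lg n :=
    rot_coeff (toBranch hf) (toBranch hg.2.1) hζ hrot lam n
  have hnn := (good_ab hα hβ0 hβ1 hab).pw_nn (γ := lam / α) (by positivity) n
  rw [h1, norm_mul, norm_pow, hζ, one_pow, one_mul, ext_pcoef hα hβ1 hg, Complex.norm_real,
    Real.norm_of_nonneg hnn, ofReal_re]

/-- uniqueness and stability for one coefficient of one power. -/
lemma powers (hα : 0 < α) (hβ0 : 0 ≤ β) (hβ1 : β < 1) (hab : (1 - 2 * β) * α ≤ 1)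
    (hg : IsExtremal α β g lg) {lam : ℝ} (hlam : α < lam) {n : ℕ} (hn : 1 ≤ n) :
    (∀ f l, InB1 α β f l → ‖pcoef lam l n‖ ≤ (pcoef lam lg n).re) ∧
    (∀ f l, InB1 α β f l → (‖pcoef lam l n‖ = (pcoef lam lg n).re ↔ IsRotation f g)) ∧
    ∃ C, ∀ f l, InB1 α β f l →
      NearRotation α f l g lg (C * √((pcoef lam lg n).re - ‖pcoef lam l n‖)) := by
  obtain ⟨κ, hκ, hmain⟩ := main_slack hα hβ0 hβ1 hab hlam n hn
  have hlam0 : 0 < lam := hα.trans hlam
  have hb : 0 < 1 - β := by linarith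
  -- the basic estimate
  have key : ∀ f l, InB1 α β f l →
      κ * (1 - ‖tc (nq α β f l) 1‖ / 2) ≤ (pcoef lam lg n).re - ‖pcoef lam l n‖ := by
    intro f l hf
    have h1 : ‖pcoef lam l n‖ + κ * (1 - ‖tc (nq α β f l) 1‖ / 2) ≤ _ :=
      hmain f l (toBranch hf.2.1) hf.2.2
    rw [ext_pcoef hα hβ1 hg, ofReal_re]
    linarith
  have htwo : ∀ f l, InB1 α β f l → 0 ≤ 1 - ‖tc (nq α β f l) 1‖ / 2 := by
    intro f l hf
    have := tc_le_two (nq_diff (toBranch hf.2.1) α β) (nq_zero (toBranch hf.2.1) α hβ1)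
      (nq_pos hβ1 hf.2.2) (k := 1) le_rfl
    linarith
  have hnear : ∀ f l, InB1 α β f l → ∃ ζ : ℂ, ‖ζ‖ = 1 ∧ ∀ k, 1 ≤ k →
      ‖tc (nq α β f l) k - 2 * ζ ^ k‖ ≤
        2 * (k * √(2 * (1 - ‖tc (nq α β f l) 1‖ / 2))) := fun f l hf =>
    near_rot (nq_diff (toBranch hf.2.1) α β) (nq_zero (toBranch hf.2.1) α hβ1)
      (nq_pos hβ1 hf.2.2)
  refine ⟨?_, ?_, 2 * (1 - β) * √(2 / κ), ?_⟩
  · intro f l hf
    have h1 := key f l hf
    have h2 := mul_nonneg hκ.le (htwo f l hf)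
    linarith
  · intro f l hf
    refine ⟨?_, fun h => rot_eq hα hβ0 hβ1 hab hg hf.2.1 h hlam0 n⟩
    intro heq
    have h1 := key f l hf
    rw [heq, sub_self] at h1
    have h2 : 1 - ‖tc (nq α β f l) 1‖ / 2 = 0 := by
      have h3 := htwo f l hf
      by_contra hne
      have h4 : 0 < 1 - ‖tc (nq α β f l) 1‖ / 2 := lt_of_le_of_ne h3 (Ne.symm hne)
      have := mul_pos hκ h4
      linarith
    obtain ⟨ζ, hζ, hζk⟩ := hnear f l hf
    rw [h2] at hζk
    simp only [mul_zero, Real.sqrt_zero] at hζk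
    refine ⟨ζ, hζ, rot_of_tc hα hβ1 (toBranch hf.2.1) (toBranch hg.2.1) hg.2.2 hζ ?_⟩
    intro k hk
    have := hζk k hk
    exact sub_eq_zero.1 (norm_le_zero_iff.1 this)
  · intro f l hf
    obtain ⟨ζ, hζ, hζk⟩ := hnear f l hf
    refine ⟨ζ, hζ, ?_⟩
    intro z hz
    have h1 := near_rot_fun (nq_diff (toBranch hf.2.1) α β) (nq_zero (toBranch hf.2.1) α hβ1) hζ
      hζk hz
    have hzr := rot_mem hζ hz
    have e1 : bazExpr α f l z - bazExpr α g lg (ζ * z) =
        ((1 - β : ℝ) : ℂ) * (nq α β f l z - (1 + ζ * z) / (1 - ζ * z)) := by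
      rw [hg.2.2 _ hzr, ext_split β hzr]
      have : bazExpr α f l z = ((1 - β : ℝ) : ℂ) * nq α β f l z + ((β : ℝ) : ℂ) :=
        bz_eq_nq α hβ1 z
      rw [this]; ring
    rw [e1, norm_mul, Complex.norm_real, Real.norm_of_nonneg hb.le]
    have h2 : √(2 * (1 - ‖tc (nq α β f l) 1‖ / 2)) ≤
        √(2 / κ) * √((pcoef lam lg n).re - ‖pcoef lam l n‖) := by
      rw [← Real.sqrt_mul (by positivity)]
      apply Real.sqrt_le_sqrt
      have h3 := key f l hf
      rw [div_mul_eq_mul_div, le_div_iff₀ hκ]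
      linarith
    have hz1 : ‖z‖ < 1 := by simpa using hz
    have hden : 0 < (1 - ‖z‖) ^ 2 := by
      have : 0 < 1 - ‖z‖ := by linarith
      positivity
    refine (mul_le_mul_of_nonneg_left h1 hb.le).trans ?_
    rw [← mul_div_assoc]
    apply div_le_div_of_nonneg_right _ hden.le
    have h4 := mul_le_mul_of_nonneg_left h2 (show 0 ≤ 2 * (1 - β) by linarith)
    linarith

end

/-- **Main theorem.** Let `α > 0` and `0 ≤ β < 1`. The extremal function `g` of the Bazilevic class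
`B_1(α, β)` exists, it is in the class, and all its coefficients (and those of its powers) are real.
(1) `|a_n(f)| ≤ a_n(g)` for all `f` in the class and all `n ≥ 2` if and only if `α ≤ 1`.
(2) For `α < 1` and every `n ≥ 2`: `|a_n(f)| = a_n(g)` if and only if `f` is a rotation of `g`; and
there is `C` such that for every `f` in the class, `(f(z)/z)^(α-1) f'(z)` is at distance at most
`C √(a_n(g) - |a_n(f)|) / (1-|z|)^2` from the same expression for a rotation of `g`.
(3) Let `(1-2β) α ≤ 1` and `λ > 0`. The coefficients of `(f(z)/z)^λ` have at most the modulus of those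
of `(g(z)/z)^λ`, for all `f` and all `n`, if and only if `λ ≥ α`; for `λ > α` and every `n ≥ 1` the
statements of (2) hold for the `n`-th coefficients of these powers. -/
theorem result (α β : ℝ) (hα : 0 < α) (hβ0 : 0 ≤ β) (hβ1 : β < 1) :
    (∃ g lg, IsExtremal α β g lg) ∧
    ∀ g lg, IsExtremal α β g lg →
      InB1 α β g lg ∧ (∀ n, (coef g n).im = 0) ∧ (∀ (lam : ℝ) (n : ℕ), (pcoef lam lg n).im = 0) ∧
      -- (1)
      ((∀ f l, InB1 α β f l → ∀ n, 2 ≤ n → ‖coef f n‖ ≤ (coef g n).re) ↔ α ≤ 1) ∧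
      -- (2)
      (α < 1 → ∀ n, 2 ≤ n →
        (∀ f l, InB1 α β f l → (‖coef f n‖ = (coef g n).re ↔ IsRotation f g)) ∧
        ∃ C, ∀ f l, InB1 α β f l →
          NearRotation α f l g lg (C * √((coef g n).re - ‖coef f n‖))) ∧
      -- (3)
      ((1 - 2 * β) * α ≤ 1 → ∀ lam : ℝ, 0 < lam →
        ((∀ f l, InB1 α β f l → ∀ n, ‖pcoef lam l n‖ ≤ (pcoef lam lg n).re) ↔ α ≤ lam) ∧
        (α < lam → ∀ n, 1 ≤ n →
          (∀ f l, InB1 α β f l → (‖pcoef lam l n‖ = (pcoef lam lg n).re ↔ IsRotation f g)) ∧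
          ∃ C, ∀ f l, InB1 α β f l →
            NearRotation α f l g lg (C * √((pcoef lam lg n).re - ‖pcoef lam l n‖)))) := by
  have hb : 0 < 1 - β := by linarith
  refine ⟨exists_ext hα hβ0 hβ1, ?_⟩
  intro g lg hg
  have him : ∀ (lam : ℝ) (n : ℕ), (pcoef lam lg n).im = 0 := by
    intro lam n
    rw [ext_pcoef hα hβ1 hg]; exact ofReal_im _
  -- the inequality fails below `α`
  have hneg : ∀ lam : ℝ, 0 < lam → lam < α → ∃ f l, InB1 α β f l ∧
      (pcoef lam lg 2).re < ‖pcoef lam l 2‖ := by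
    intro lam h0 h1
    obtain ⟨f, l, hfl, hpos, hlt⟩ := counter hα hβ0 hβ1 h0 h1
    refine ⟨f, l, ⟨inA_of_branch hfl, ⟨hfl.1, hfl.2.1, hfl.2.2⟩, hpos⟩, ?_⟩
    rw [ext_pcoef hα hβ1 hg, ofReal_re]
    exact lt_of_le_of_lt (le_abs_self _) hlt
  -- the inequality for the exponent `α`
  have heq : (1 - 2 * β) * α ≤ 1 → ∀ f l, InB1 α β f l → ∀ n, 1 ≤ n →
      ‖pcoef α l n‖ ≤ (pcoef α lg n).re := by
    intro hab f l hf n hn
    have := main_eq hα hβ0 hβ1 hab (toBranch hf.2.1) hf.2.2 n hn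
    rw [ext_pcoef hα hβ1 hg, ofReal_re]
    exact this
  have hzero : ∀ (lam : ℝ) (f l : ℂ → ℂ), IsLogBranch f l → pcoef lam l 0 = 1 := by
    intro lam f l h
    have : pcoef lam l 0 = exp (lam * l 0) := tc_zero _
    rw [this, h.zero]; simp
  refine ⟨⟨hg.1, hg.2.1, ?_⟩, ?_, him, ?_, ?_, ?_⟩
  · intro z hz
    rw [hg.2.2 z hz]
    exact ext_re hβ1 hz
  · intro n
    cases n with
    | zero =>
      have : coef g 0 = g 0 := tc_zero g
      rw [this, hg.1.zero]; simp
    | succ n =>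
      rw [coef_succ hg.2.1]
      exact him 1 n
  · constructor
    · intro h
      by_contra hcon
      push Not at hcon
      obtain ⟨f, l, hf, hlt⟩ := hneg 1 one_pos hcon
      have := h f l hf 3 (by norm_num)
      rw [coef_succ hf.2.1, coef_succ hg.2.1] at this
      linarith
    · intro hα1 f l hf n hn
      obtain ⟨m, rfl⟩ : ∃ m, n = m + 1 := ⟨n - 1, by omega⟩
      have hab : (1 - 2 * β) * α ≤ 1 := by nlinarith
      rw [coef_succ hf.2.1, coef_succ hg.2.1]
      rcases hα1.eq_or_lt with h | h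
      · have := heq hab f l hf m (by omega)
        rwa [h] at this
      · exact (powers hα hβ0 hβ1 hab hg h (n := m) (by omega)).1 f l hf
  · intro hα1 n hn
    obtain ⟨m, rfl⟩ : ∃ m, n = m + 1 := ⟨n - 1, by omega⟩
    have hab : (1 - 2 * β) * α ≤ 1 := by nlinarith
    obtain ⟨-, h2, C, h3⟩ := powers hα hβ0 hβ1 hab hg hα1 (n := m) (by omega)
    refine ⟨?_, C, ?_⟩
    · intro f l hf
      rw [coef_succ hf.2.1, coef_succ hg.2.1]
      exact h2 f l hf
    · intro f l hf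
      rw [coef_succ hf.2.1, coef_succ hg.2.1]
      exact h3 f l hf
  · intro hab lam hlam0
    refine ⟨⟨?_, ?_⟩, ?_⟩
    · intro h
      by_contra hcon
      push Not at hcon
      obtain ⟨f, l, hf, hlt⟩ := hneg lam hlam0 hcon
      have := h f l hf 2
      linarith
    · intro h f l hf n
      rcases Nat.eq_zero_or_pos n with rfl | hn
      · rw [hzero lam f l hf.2.1, hzero lam g lg hg.2.1]; simp
      · rcases h.eq_or_lt with h | h
        · rw [← h]
          exact heq hab f l hf n hn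
        · exact (powers hα hβ0 hβ1 hab hg h hn).1 f l hf
    · intro h n hn
      exact (powers hα hβ0 hβ1 hab hg h hn).2

end Pool.Agent.Results.MP_0e1b7e_an.UniqueAndStable
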